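import Pool.Agent.U325.PT.Diff

/-!
The sums of `∏_{i ∈ I} λ(n + h_i) a(d, h, n)` over the `n ≤ X` with `d_i ∣ n + h_i` for all `i`, on
average over the vectors `h` of shifts: Cauchy and Schwarz for one coordinate `j ∈ I`, and the number of
the `h` for which the other conditions are compatible.
-/

set_option autoImplicit false

namespace Pool.Agent.U325.PT

open Finset
open Pool.Agent.U325.PB

variable {r : ℕ}

/-- the vectors with coordinates `1, ..., X` -/
def box (r X : ℕ) : Finset (Fin r → ℕ) := Fintype.piFinset fun _ => Icc 1 X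

lemma mem_box {X : ℕ} {h : Fin r → ℕ} : h ∈ box r X ↔ ∀ i, 1 ≤ h i ∧ h i ≤ X := by
  unfold box
  rw [Fintype.mem_piFinset]
  exact forall_congr' fun i => mem_Icc

/-- the vectors of positive integers with product `≤ Z` -/
def lev (r Z : ℕ) : Finset (Fin r → ℕ) := (box r Z).filter fun d => ∏ i, d i ≤ Z

lemma mem_lev {Z : ℕ} {d : Fin r → ℕ} : d ∈ lev r Z ↔ (∀ i, 1 ≤ d i) ∧ ∏ i, d i ≤ Z := by
  unfold lev
  rw [mem_filter, mem_box]
  constructor
  · rintro ⟨h1, h2⟩
    exact ⟨fun i => (h1 i).1, h2⟩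
  · rintro ⟨h1, h2⟩
    refine ⟨fun i => ⟨h1 i, le_trans ?_ h2⟩, h2⟩
    exact Nat.le_of_dvd (prod_pos fun i _ => h1 i) (dvd_prod_of_mem d (mem_univ i))

/-- the least common multiple of the `d i`, `i ≠ j` -/
def lcmo (j : Fin r) (d : Fin r → ℕ) : ℕ := (univ.erase j).lcm d

lemma upd_sum (X : ℕ) (j : Fin r) (f : (Fin r → ℕ) → ℝ) :
    ∑ h ∈ box r X, ∑ x ∈ Icc 1 X, f (Function.update h j x) = X * ∑ h ∈ box r X, f h := by
  have h1 : ∑ h ∈ box r X, ∑ x ∈ Icc 1 X, f (Function.update h j x) =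
      ∑ p ∈ box r X ×ˢ Icc 1 X, f (Function.update p.1 j p.2) := by rw [sum_product]
  have hmem : ∀ p ∈ box r X ×ˢ Icc 1 X, (Function.update p.1 j p.2, p.1 j) ∈ box r X ×ˢ Icc 1 X := by
    intro p hp
    rw [mem_product, mem_box, mem_Icc] at hp
    rw [mem_product, mem_box, mem_Icc]
    refine ⟨fun i => ?_, hp.1 j⟩
    dsimp only
    by_cases hi : i = j
    · subst hi
      rw [Function.update_self]
      exact hp.2
    · rw [Function.update_of_ne hi]
      exact hp.1 i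
  have hinv : ∀ p : (Fin r → ℕ) × ℕ, (Function.update (Function.update p.1 j p.2) j (p.1 j), Function.update p.1 j p.2 j) = p := by
    intro p
    rw [Function.update_idem, Function.update_eq_self, Function.update_self]
  have h2 : ∑ p ∈ box r X ×ˢ Icc 1 X, f (Function.update p.1 j p.2) = ∑ p ∈ box r X ×ˢ Icc 1 X, f p.1 :=
    sum_bij' (fun p _ => (Function.update p.1 j p.2, p.1 j)) (fun p _ => (Function.update p.1 j p.2, p.1 j))
      hmem hmem (fun p _ => hinv p) (fun p _ => hinv p) (fun p _ => rfl)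
  rw [h1, h2, sum_product]
  simp only [sum_const, Nat.card_Icc, Nat.add_sub_cancel, nsmul_eq_mul]
  rw [mul_sum]

/-- the sum over `n` -/
noncomputable def TT (I : Finset (Fin r)) (a : (Fin r → ℕ) → (Fin r → ℕ) → ℕ → ℝ) (X : ℕ) (d h : Fin r → ℕ) : ℝ :=
  ∑ n ∈ Icc 1 X, (∏ i ∈ I, lam (n + h i)) * (if ∀ i, d i ∣ n + h i then a d h n else 0)

/-- the factor which does not depend on the coordinate `j` -/
noncomputable def uu (I : Finset (Fin r)) (a : (Fin r → ℕ) → (Fin r → ℕ) → ℕ → ℝ) (X : ℕ) (j : Fin r)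
    (d h : Fin r → ℕ) (n : ℕ) : ℝ :=
  if n ≤ X ∧ ∀ i, i ≠ j → d i ∣ n + h i then (∏ i ∈ I.erase j, lam (n + h i)) * a d h n else 0

lemma TT_upd (I : Finset (Fin r)) (a : (Fin r → ℕ) → (Fin r → ℕ) → ℕ → ℝ) (X : ℕ) (j : Fin r) (hj : j ∈ I)
    (ha : ∀ d h x n, a d (Function.update h j x) n = a d h n) (d h : Fin r → ℕ) (x : ℕ) :
    TT I a X d (Function.update h j x) = ∑ n ∈ Icc 1 X, uu I a X j d h n * vE (d j) (n + x) := by
  unfold TT
  refine sum_congr rfl fun n hn => ?_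
  rw [mem_Icc] at hn
  have h1 : ∏ i ∈ I, lam (n + Function.update h j x i) = lam (n + x) * ∏ i ∈ I.erase j, lam (n + h i) := by
    rw [← mul_prod_erase I _ hj, Function.update_self]
    congr 1
    refine prod_congr rfl fun i hi => ?_
    rw [Function.update_of_ne (ne_of_mem_erase hi)]
  have h2 : (∀ i, d i ∣ n + Function.update h j x i) ↔ (d j ∣ n + x ∧ ∀ i, i ≠ j → d i ∣ n + h i) := by
    constructor
    · intro h
      refine ⟨?_, fun i hi => ?_⟩
      · have := h j; rwa [Function.update_self] at this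
      · have := h i; rwa [Function.update_of_ne hi] at this
    · rintro ⟨h3, h4⟩ i
      by_cases hi : i = j
      · subst hi; rwa [Function.update_self]
      · rw [Function.update_of_ne hi]; exact h4 i hi
  rw [h1, ha]
  unfold uu vE
  by_cases b1 : d j ∣ n + x
  · by_cases b2 : ∀ i, i ≠ j → d i ∣ n + h i
    · rw [if_pos (h2.2 ⟨b1, b2⟩), if_pos ⟨hn.2, b2⟩, if_pos b1]; ring
    · rw [if_neg (fun h => b2 (h2.1 h).2), if_neg (fun h => b2 h.2), mul_zero, zero_mul]
  · rw [if_neg (fun h => b1 (h2.1 h).1), if_neg b1, mul_zero, mul_zero]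

lemma uu_abs (I : Finset (Fin r)) (a : (Fin r → ℕ) → (Fin r → ℕ) → ℕ → ℝ) (ha : ∀ d h n, |a d h n| ≤ 1) (X : ℕ)
    (j : Fin r) (d h : Fin r → ℕ) (n : ℕ) : |uu I a X j d h n| ≤ 1 := by
  unfold uu
  split_ifs
  · rw [abs_mul, abs_prod]
    simp only [lam_abs, prod_const_one, one_mul]
    exact ha d h n
  · simp

lemma uu_cls (I : Finset (Fin r)) (a : (Fin r → ℕ) → (Fin r → ℕ) → ℕ → ℝ) (X : ℕ) (j : Fin r) (d h : Fin r → ℕ)
    (m n : ℕ) (hmn : ¬ ((lcmo j d : ℕ) : ℤ) ∣ (m : ℤ) - (n : ℤ)) : uu I a X j d h m * uu I a X j d h n = 0 := by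
  unfold uu
  by_cases b1 : m ≤ X ∧ ∀ i, i ≠ j → d i ∣ m + h i
  · by_cases b2 : n ≤ X ∧ ∀ i, i ≠ j → d i ∣ n + h i
    · exfalso
      apply hmn
      rw [Int.natCast_dvd]
      unfold lcmo
      refine Finset.lcm_dvd fun i hi => ?_
      rw [← Int.natCast_dvd]
      have h1 := Int.natCast_dvd_natCast.2 (b1.2 i (ne_of_mem_erase hi))
      have h2 := Int.natCast_dvd_natCast.2 (b2.2 i (ne_of_mem_erase hi))
      have h3 := dvd_sub h1 h2
      push_cast at h3
      have e : (m : ℤ) + (h i : ℤ) - ((n : ℤ) + (h i : ℤ)) = (m : ℤ) - n := by ring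
      rwa [e] at h3
    · rw [if_neg b2, mul_zero]
  · rw [if_neg b1, zero_mul]

lemma uu_big (I : Finset (Fin r)) (a : (Fin r → ℕ) → (Fin r → ℕ) → ℕ → ℝ) (X : ℕ) (j : Fin r) (d h : Fin r → ℕ)
    (n : ℕ) (hn : X < n) : uu I a X j d h n = 0 := by
  unfold uu
  rw [if_neg (fun h => absurd h.1 (by omega))]

lemma card_cls (X d n : ℕ) (hd : 1 ≤ d) (hdX : d ≤ X) :
    (((Icc 1 X).filter (fun x => d ∣ n + x)).card : ℝ) ≤ 2 * X / d := by
  have h2 : ((Icc 1 X).filter (fun x => d ∣ n + x)).card ≤ (range (X / d + 1)).card := by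
    refine card_le_card_of_injOn (fun n => n / d) ?_ ?_
    · intro m hm
      rw [mem_coe, mem_filter, mem_Icc] at hm
      rw [mem_coe, mem_range]
      exact Nat.lt_succ_of_le (Nat.div_le_div_right hm.1.2)
    · intro a ha b hb hab
      rw [mem_coe, mem_filter] at ha hb
      dsimp only at hab
      have h4 : a % d = b % d := by
        have h6 : n + a ≡ n + b [MOD d] :=
          ((Nat.modEq_zero_iff_dvd.2 ha.2).trans (Nat.modEq_zero_iff_dvd.2 hb.2).symm)
        exact Nat.ModEq.add_left_cancel' n h6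
      rw [← Nat.div_add_mod a d, ← Nat.div_add_mod b d, hab, h4]
  rw [card_range] at h2
  have hdr : (0 : ℝ) < d := by exact_mod_cast hd
  have h3 : ((X / d : ℕ) : ℝ) ≤ (X : ℝ) / d := Nat.cast_div_le
  have h4 : (1 : ℝ) ≤ (X : ℝ) / d := by rw [le_div_iff₀ hdr, one_mul]; exact_mod_cast hdX
  calc (((Icc 1 X).filter (fun x => d ∣ n + x)).card : ℝ) ≤ ((X / d + 1 : ℕ) : ℝ) := by exact_mod_cast h2
    _ = ((X / d : ℕ) : ℝ) + 1 := by push_cast; ring
    _ ≤ (X : ℝ) / d + (X : ℝ) / d := add_le_add h3 h4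
    _ = _ := by ring

/-- the number of the `h` with given divisibilities -/
lemma card_box (X n : ℕ) (j : Fin r) (d : Fin r → ℕ) (hd : ∀ i, 1 ≤ d i ∧ d i ≤ X) :
    (((box r X).filter (fun h => ∀ i, i ≠ j → d i ∣ n + h i)).card : ℝ) ≤
      X * ∏ i ∈ univ.erase j, (2 * (X : ℝ) / d i) := by
  have h1 : (box r X).filter (fun h => ∀ i, i ≠ j → d i ∣ n + h i) =
      Fintype.piFinset (fun i => if i = j then Icc 1 X else (Icc 1 X).filter (fun x => d i ∣ n + x)) := by
    ext h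
    rw [mem_filter, mem_box, Fintype.mem_piFinset]
    constructor
    · rintro ⟨h1, h2⟩ i
      by_cases hi : i = j
      · rw [if_pos hi, mem_Icc]; exact h1 i
      · rw [if_neg hi, mem_filter, mem_Icc]; exact ⟨h1 i, h2 i hi⟩
    · intro h1
      refine ⟨fun i => ?_, fun i hi => ?_⟩
      · have := h1 i
        by_cases hi : i = j
        · rw [if_pos hi, mem_Icc] at this; exact this
        · rw [if_neg hi, mem_filter, mem_Icc] at this; exact this.1
      · have := h1 i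
        rw [if_neg hi, mem_filter] at this
        exact this.2
  rw [h1, Fintype.card_piFinset, ← mul_prod_erase univ _ (mem_univ j), if_pos rfl, Nat.card_Icc, Nat.add_sub_cancel]
  push_cast
  refine mul_le_mul_of_nonneg_left ?_ (Nat.cast_nonneg _)
  refine prod_le_prod (fun _ _ => Nat.cast_nonneg _) fun i hi => ?_
  rw [if_neg (ne_of_mem_erase hi)]
  exact card_cls X (d i) n (hd i).1 (hd i).2

/-- **The sum over the shifts, for one vector of divisors.** -/
theorem sum_TT (I : Finset (Fin r)) (a : (Fin r → ℕ) → (Fin r → ℕ) → ℕ → ℝ) (ha : ∀ d h n, |a d h n| ≤ 1)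
    (X Z : ℕ) (hX : 1 ≤ X) (hZ : Z ≤ X) (j : Fin r) (hj : j ∈ I)
    (haj : ∀ d h x n, a d (Function.update h j x) n = a d h n) (d : Fin r → ℕ) (hd : d ∈ lev r Z) :
    ∑ h ∈ box r X, |TT I a X d h| ≤ (2 * (X : ℝ)) ^ (r - 1) * Real.sqrt (X * QQ (2 * X) (lcmo j d, d j)) := by
  rw [mem_lev] at hd
  obtain ⟨hd1, hdZ⟩ := hd
  set D := lcmo j d with hD
  set P := ∏ i ∈ univ.erase j, d i with hP
  have hP1 : 1 ≤ P := by
    have : 0 < ∏ i ∈ univ.erase j, d i := prod_pos fun i _ => hd1 i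
    exact this
  have hDP : D ∣ P := Finset.lcm_dvd fun i hi => dvd_prod_of_mem d hi
  have hD1 : 1 ≤ D := Nat.pos_of_dvd_of_pos hDP hP1
  have hDle : D ≤ P := Nat.le_of_dvd hP1 hDP
  have hPd : d j * P = ∏ i, d i := mul_prod_erase univ d (mem_univ j)
  have hDe : D * d j ≤ X := by
    calc D * d j ≤ P * d j := Nat.mul_le_mul_right _ hDle
      _ = ∏ i, d i := by rw [mul_comm, hPd]
      _ ≤ X := hdZ.trans hZ
  have hdX : ∀ i, 1 ≤ d i ∧ d i ≤ X := fun i => ⟨hd1 i, (Nat.le_of_dvd (prod_pos fun i _ => hd1 i)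
    (dvd_prod_of_mem d (mem_univ i))).trans (hdZ.trans hZ)⟩
  set B := Real.sqrt (X * QQ (2 * X) (D, d j)) with hB
  have hB0 : 0 ≤ B := Real.sqrt_nonneg _
  have hXr : (0 : ℝ) < X := by exact_mod_cast hX
  refine le_of_mul_le_mul_left ?_ hXr
  rw [← upd_sum X j (fun h => |TT I a X d h|)]
  have h1 : ∀ h ∈ box r X, ∑ x ∈ Icc 1 X, |TT I a X d (Function.update h j x)| ≤
      ∑ n ∈ range D, if ∀ i, i ≠ j → d i ∣ n + h i then B else 0 := by
    intro h _
    by_cases hc : ∃ n ∈ range D, ∀ i, i ≠ j → d i ∣ n + h i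
    · obtain ⟨n, hn, hc⟩ := hc
      have e1 : ∑ x ∈ Icc 1 X, |TT I a X d (Function.update h j x)| ≤ B := by
        rw [sum_congr rfl fun x _ => by rw [TT_upd I a X j hj haj d h x]]
        exact shift_sum _ (uu_abs I a ha X j d h) X D (d j) hD1 (hd1 j) hDe
          (fun m n hmn => uu_cls I a X j d h m n hmn) (fun n hn => uu_big I a X j d h n hn)
      refine e1.trans ?_
      have e2 : B = if ∀ i, i ≠ j → d i ∣ n + h i then B else 0 := by rw [if_pos hc]
      calc B = if ∀ i, i ≠ j → d i ∣ n + h i then B else 0 := e2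
        _ ≤ _ := single_le_sum (f := fun n => if ∀ i, i ≠ j → d i ∣ n + h i then B else 0)
            (fun n _ => by split_ifs; exacts [hB0, le_rfl]) hn
    · have e1 : ∀ n, uu I a X j d h n = 0 := by
        intro n
        unfold uu
        rw [if_neg]
        rintro ⟨_, h3⟩
        apply hc
        refine ⟨n % D, mem_range.2 (Nat.mod_lt _ hD1), fun i hi => ?_⟩
        have h4 : d i ∣ D := Finset.dvd_lcm (mem_erase.2 ⟨hi, mem_univ i⟩)
        have h5 : n % D + h i ≡ n + h i [MOD d i] := Nat.ModEq.add_right _ ((Nat.mod_modEq n D).of_dvd h4)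
        exact Nat.modEq_zero_iff_dvd.1 (h5.trans (Nat.modEq_zero_iff_dvd.2 (h3 i hi)))
      rw [sum_congr rfl fun x _ => by rw [TT_upd I a X j hj haj d h x]]
      simp only [e1, zero_mul, sum_const_zero, abs_zero]
      exact sum_nonneg fun n _ => by split_ifs; exacts [hB0, le_rfl]
  refine (sum_le_sum h1).trans ?_
  rw [sum_comm]
  have h2 : ∀ n ∈ range D, ∑ h ∈ box r X, (if ∀ i, i ≠ j → d i ∣ n + h i then B else 0) ≤
      X * (∏ i ∈ univ.erase j, (2 * (X : ℝ) / d i)) * B := by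
    intro n _
    rw [← sum_filter, sum_const, nsmul_eq_mul]
    exact mul_le_mul_of_nonneg_right (card_box X n j d hdX) hB0
  refine (sum_le_sum h2).trans ?_
  rw [sum_const, card_range, nsmul_eq_mul, prod_div_distrib, prod_const, card_erase_of_mem (mem_univ j), card_univ,
    Fintype.card_fin]
  have hPr : ∏ i ∈ univ.erase j, (d i : ℝ) = (P : ℝ) := by rw [hP]; push_cast; rfl
  rw [hPr]
  have hPr0 : (0 : ℝ) < P := by exact_mod_cast hP1
  have hDPr : (D : ℝ) / P ≤ 1 := by rw [div_le_one hPr0]; exact_mod_cast hDle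
  calc (D : ℝ) * (X * ((2 * (X : ℝ)) ^ (r - 1) / P) * B) = (D : ℝ) / P * (X * (2 * (X : ℝ)) ^ (r - 1) * B) := by ring
    _ ≤ 1 * (X * (2 * (X : ℝ)) ^ (r - 1) * B) := mul_le_mul_of_nonneg_right hDPr (by positivity)
    _ = _ := by ring

end Pool.Agent.U325.PT
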