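import Pool.Agent.U325.PB.Fin2

/-!
The mean square over the differences `x ≤ X` of `∑_n u(n) v(n + x)`, where `u` is supported on one
residue class.
-/

set_option autoImplicit false

namespace Pool.Agent.U325.PT

open Finset
open Pool.Agent.U325.PB

/-- the mean square over the differences -/
lemma diff_quad (X : ℕ) (u v : ℕ → ℝ) (hu : ∀ n, X < n → u n = 0) :
    ∑ x ∈ Icc 1 X, (∑ n ∈ Icc 1 X, u n * v (n + x)) ^ 2 ≤ quad u v (2 * X) := by
  set Y := 2 * X with hY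
  set I := Icc 1 Y ×ˢ Icc 1 Y with hI
  have h2 : ∑ g ∈ range (2 * Y + 1), (∑ i ∈ I.filter (fun i => i.2 + Y = g + i.1), u i.1 * v i.2) ^ 2 =
      ∑ i ∈ I, ∑ j ∈ I, if i.2 + j.1 = j.2 + i.1 then u i.1 * v i.2 * (u j.1 * v j.2) else 0 := by
    have e1 : ∀ g ∈ range (2 * Y + 1), (∑ i ∈ I.filter (fun i => i.2 + Y = g + i.1), u i.1 * v i.2) ^ 2 =
        ∑ i ∈ I, ∑ j ∈ I, if i.2 + Y = g + i.1 ∧ j.2 + Y = g + j.1 then u i.1 * v i.2 * (u j.1 * v j.2) else 0 := by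
      intro g _
      rw [sq, sum_filter, sum_mul_sum]
      refine sum_congr rfl fun i _ => sum_congr rfl fun j _ => ?_
      by_cases a1 : i.2 + Y = g + i.1 <;> by_cases a2 : j.2 + Y = g + j.1 <;> simp [a1, a2]
    rw [sum_congr rfl e1, sum_comm]
    refine sum_congr rfl fun i hi => ?_
    rw [sum_comm]
    refine sum_congr rfl fun j hj => ?_
    rw [hI, mem_product, mem_Icc, mem_Icc] at hi hj
    by_cases a1 : i.2 + j.1 = j.2 + i.1
    · rw [if_pos a1, sum_eq_single (i.2 + Y - i.1)]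
      · rw [if_pos (by omega)]
      · intro b _ hb
        rw [if_neg (fun h => hb (by omega))]
      · intro h
        exact absurd (mem_range.2 (by omega)) h
    · rw [if_neg a1]
      refine sum_eq_zero fun g _ => ?_
      rw [if_neg (fun h => a1 (by omega))]
  have h3 : (∑ i ∈ I, ∑ j ∈ I, if i.2 + j.1 = j.2 + i.1 then u i.1 * v i.2 * (u j.1 * v j.2) else 0) = quad u v Y := by
    rw [hI, sum_product]
    unfold quad
    refine sum_congr rfl fun i _ => ?_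
    have e1 : ∀ k ∈ Icc 1 Y, (∑ j ∈ Icc 1 Y ×ˢ Icc 1 Y, if k + j.1 = j.2 + i then u i * v k * (u j.1 * v j.2) else 0) =
        ∑ j ∈ Icc 1 Y, ∑ l ∈ Icc 1 Y, if (i : ℤ) - (j : ℤ) = (k : ℤ) - (l : ℤ) then u i * u j * (v k * v l) else 0 := by
      intro k _
      rw [sum_product]
      refine sum_congr rfl fun j _ => sum_congr rfl fun l _ => ?_
      by_cases a : k + j = l + i
      · rw [if_pos a, if_pos (by omega)]; ring
      · rw [if_neg a, if_neg (by omega)]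
    rw [sum_congr rfl e1, sum_comm]
  have h4 : ∀ x ∈ Icc 1 X, (∑ n ∈ Icc 1 X, u n * v (n + x)) =
      ∑ i ∈ I.filter (fun i => i.2 + Y = (x + Y) + i.1), u i.1 * v i.2 := by
    intro x hx
    rw [mem_Icc] at hx
    have e1 : ∑ i ∈ I.filter (fun i => i.2 + Y = (x + Y) + i.1), u i.1 * v i.2 =
        ∑ i ∈ (I.filter (fun i => i.2 + Y = (x + Y) + i.1)).filter (fun i => i.1 ≤ X), u i.1 * v i.2 := by
      symm
      refine sum_filter_of_ne fun i _ hi => ?_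
      by_contra hcon
      exact hi (by rw [hu i.1 (by omega), zero_mul])
    rw [e1]
    refine sum_bij' (fun n _ => (n, n + x)) (fun i _ => i.1) ?_ ?_ ?_ ?_ ?_
    · intro n hn
      rw [mem_Icc] at hn
      rw [mem_filter, mem_filter, hI, mem_product, mem_Icc, mem_Icc]
      dsimp only
      omega
    · intro i hi
      rw [mem_filter, mem_filter, hI, mem_product, mem_Icc, mem_Icc] at hi
      rw [mem_Icc]
      omega
    · intro n _; rfl
    · intro i hi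
      rw [mem_filter, mem_filter, hI, mem_product, mem_Icc, mem_Icc] at hi
      ext
      · rfl
      · dsimp only; omega
    · intro n _; rfl
  rw [← h3, ← h2, sum_congr rfl fun x hx => by rw [h4 x hx]]
  have h5 : ∑ x ∈ Icc 1 X, (∑ i ∈ I.filter (fun i => i.2 + Y = (x + Y) + i.1), u i.1 * v i.2) ^ 2 =
      ∑ g ∈ (Icc 1 X).image (fun x => x + Y), (∑ i ∈ I.filter (fun i => i.2 + Y = g + i.1), u i.1 * v i.2) ^ 2 := by
    rw [sum_image]
    intro a _ b _ hab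
    exact Nat.add_right_cancel hab
  rw [h5]
  refine sum_le_sum_of_subset_of_nonneg ?_ fun _ _ _ => sq_nonneg _
  intro g hg
  rw [mem_image] at hg
  obtain ⟨x, hx, rfl⟩ := hg
  rw [mem_Icc] at hx
  rw [mem_range]
  omega

lemma quad_eq' (u v : ℕ → ℝ) (Y D e : ℕ) (hu : ∀ i j : ℕ, ¬ (D : ℤ) ∣ (i : ℤ) - (j : ℤ) → u i * u j = 0)
    (hv : ∀ i, ¬ e ∣ i → v i = 0) :
    quad u v Y = ∑ h ∈ mul Y (Nat.lcm D e), cor u Y h * cor v Y h := by
  rw [cor_sum]
  unfold quad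
  refine sum_congr rfl fun i _ => sum_congr rfl fun j _ => sum_congr rfl fun k _ => sum_congr rfl fun l _ => ?_
  by_cases a : (i : ℤ) - (j : ℤ) = (k : ℤ) - (l : ℤ)
  · by_cases b1 : (D : ℤ) ∣ (i : ℤ) - (j : ℤ)
    · by_cases b3 : e ∣ k
      · by_cases b4 : e ∣ l
        · have h2 : (e : ℤ) ∣ (i : ℤ) - (j : ℤ) := by
            rw [a]; exact dvd_sub (Int.natCast_dvd_natCast.2 b3) (Int.natCast_dvd_natCast.2 b4)
          have h3 : ((Nat.lcm D e : ℕ) : ℤ) ∣ (i : ℤ) - (j : ℤ) := by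
            rw [Int.natCast_dvd] at b1 h2 ⊢
            exact Nat.lcm_dvd b1 h2
          rw [if_pos a, if_pos ⟨a, h3⟩]
        · rw [hv l b4]; simp
      · rw [hv k b3]; simp
    · rw [hu i j b1]; simp
  · rw [if_neg a, if_neg (fun h => a h.1)]

lemma cor_cls (u : ℕ → ℝ) (hu1 : ∀ n, |u n| ≤ 1) (X D : ℕ) (hD : 1 ≤ D) (hDX : D ≤ X)
    (hu : ∀ i j : ℕ, ¬ (D : ℤ) ∣ (i : ℤ) - (j : ℤ) → u i * u j = 0) (hu0 : ∀ n, X < n → u n = 0) (h : ℤ) :
    |cor u (2 * X) h| ≤ ((2 * X : ℕ) : ℝ) / D := by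
  unfold cor
  have h1 : ∀ i ∈ Icc 1 (2 * X), |∑ j ∈ Icc 1 (2 * X), (if (i : ℤ) - (j : ℤ) = h then u i * u j else 0)| ≤
      if i ≤ X ∧ u i ≠ 0 then 1 else 0 := by
    intro i _
    by_cases b : i ≤ X ∧ u i ≠ 0
    · rw [if_pos b]
      refine (abs_sum_le_sum_abs _ _).trans ?_
      calc ∑ j ∈ Icc 1 (2 * X), |if (i : ℤ) - (j : ℤ) = h then u i * u j else 0|
          ≤ ∑ j ∈ Icc 1 (2 * X), (if (i : ℤ) - (j : ℤ) = h then (1 : ℝ) else 0) := by
            refine sum_le_sum fun j _ => ?_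
            split_ifs
            · rw [abs_mul]; exact mul_le_one₀ (hu1 i) (abs_nonneg _) (hu1 j)
            · rw [abs_zero]
        _ = (((Icc 1 (2 * X)).filter (fun j : ℕ => (i : ℤ) - (j : ℤ) = h)).card : ℝ) := by
            rw [← sum_filter, sum_const, nsmul_eq_mul, mul_one]
        _ ≤ 1 := by
            have : ((Icc 1 (2 * X)).filter (fun j : ℕ => (i : ℤ) - (j : ℤ) = h)).card ≤ 1 := by
              rw [card_le_one]
              intro a ha b hb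
              rw [mem_filter] at ha hb
              omega
            exact_mod_cast this
    · have h0 : u i = 0 := by
        by_contra hc
        rcases Nat.lt_or_ge X i with h5 | h5
        · exact hc (hu0 i h5)
        · exact b ⟨h5, hc⟩
      rw [if_neg b, h0]; simp
  refine (abs_sum_le_sum_abs _ _).trans ((sum_le_sum h1).trans ?_)
  rw [← sum_filter, sum_const, nsmul_eq_mul, mul_one]
  have h2 : ((Icc 1 (2 * X)).filter (fun i => i ≤ X ∧ u i ≠ 0)).card ≤ (range (X / D + 1)).card := by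
    refine card_le_card_of_injOn (fun n => n / D) ?_ ?_
    · intro n hn
      rw [mem_coe, mem_filter] at hn
      rw [mem_coe, mem_range]
      exact Nat.lt_succ_of_le (Nat.div_le_div_right hn.2.1)
    · intro a ha b hb hab
      rw [mem_coe, mem_filter] at ha hb
      dsimp only at hab
      have h3 : (D : ℤ) ∣ (a : ℤ) - (b : ℤ) := by
        by_contra hc
        have := hu a b hc
        rcases mul_eq_zero.1 this with h4 | h4
        · exact ha.2.2 h4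
        · exact hb.2.2 h4
      have h4 : a % D = b % D := by
        have h6 : (a : ℤ) % D = (b : ℤ) % D := Int.modEq_iff_dvd.2 ((dvd_sub_comm).1 h3)
        exact_mod_cast h6
      rw [← Nat.div_add_mod a D, ← Nat.div_add_mod b D, hab, h4]
  rw [card_range] at h2
  have hDr : (0 : ℝ) < D := by exact_mod_cast hD
  have h3 : ((X / D : ℕ) : ℝ) ≤ (X : ℝ) / D := Nat.cast_div_le
  have h4 : (1 : ℝ) ≤ (X : ℝ) / D := by rw [le_div_iff₀ hDr, one_mul]; exact_mod_cast hDX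
  calc (((Icc 1 (2 * X)).filter (fun i => i ≤ X ∧ u i ≠ 0)).card : ℝ) ≤ ((X / D + 1 : ℕ) : ℝ) := by exact_mod_cast h2
    _ = ((X / D : ℕ) : ℝ) + 1 := by push_cast; ring
    _ ≤ (X : ℝ) / D + (X : ℝ) / D := add_le_add h3 h4
    _ = _ := by push_cast; ring

lemma SC_cls (u : ℕ → ℝ) (hu1 : ∀ n, |u n| ≤ 1) (X D q : ℕ) (hD : 1 ≤ D) (hDX : D ≤ X)
    (hu : ∀ i j : ℕ, ¬ (D : ℤ) ∣ (i : ℤ) - (j : ℤ) → u i * u j = 0) (hu0 : ∀ n, X < n → u n = 0)
    (hq : 1 ≤ q) (hqX : q ≤ X) : SC u (2 * X) q ≤ 3 * ((2 * X : ℕ) : ℝ) ^ 3 / ((D : ℝ) ^ 2 * q) := by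
  unfold SC
  calc ∑ h ∈ mul (2 * X) q, cor u (2 * X) h ^ 2 ≤ ∑ h ∈ mul (2 * X) q, (((2 * X : ℕ) : ℝ) / D) ^ 2 := by
        refine sum_le_sum fun h _ => ?_
        rw [← sq_abs]
        exact pow_le_pow_left₀ (abs_nonneg _) (cor_cls u hu1 X D hD hDX hu hu0 h) 2
    _ = (mul (2 * X) q).card * (((2 * X : ℕ) : ℝ) / D) ^ 2 := by rw [sum_const, nsmul_eq_mul]
    _ ≤ (3 * ((2 * X : ℕ) : ℝ) / q) * (((2 * X : ℕ) : ℝ) / D) ^ 2 :=
        mul_le_mul_of_nonneg_right (mul_card (2 * X) q hq (by omega)) (by positivity)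
    _ = _ := by field_simp

/-- the bound for the number of weighted solutions -/
noncomputable def QQ (Y : ℕ) (p : ℕ × ℕ) : ℝ :=
  Real.sqrt (3 * (Y : ℝ) ^ 3 / ((p.1 : ℝ) ^ 2 * (Nat.lcm p.1 p.2 : ℕ)) * SC (vE p.2) Y (Nat.lcm p.1 p.2))

lemma QQ_nonneg (Y : ℕ) (p : ℕ × ℕ) : 0 ≤ QQ Y p := Real.sqrt_nonneg _

lemma quad_QQ (u : ℕ → ℝ) (hu1 : ∀ n, |u n| ≤ 1) (X D e : ℕ) (hD : 1 ≤ D) (he : 1 ≤ e) (hDe : D * e ≤ X)
    (hu : ∀ i j : ℕ, ¬ (D : ℤ) ∣ (i : ℤ) - (j : ℤ) → u i * u j = 0) (hu0 : ∀ n, X < n → u n = 0) :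
    quad u (vE e) (2 * X) ≤ QQ (2 * X) (D, e) := by
  have hl1 : 1 ≤ Nat.lcm D e := Nat.lcm_pos hD he
  have hlX : Nat.lcm D e ≤ X := by
    have : Nat.lcm D e ≤ D * e := Nat.le_of_dvd (Nat.mul_pos hD he) (Nat.lcm_dvd_mul _ _)
    omega
  have hDX : D ≤ X := le_trans (Nat.le_mul_of_pos_right _ he) hDe
  have hv : ∀ i, ¬ e ∣ i → vE e i = 0 := fun i hi => by unfold vE; rw [if_neg hi]
  refine (le_abs_self _).trans (Real.abs_le_sqrt ?_)
  dsimp only
  rw [quad_eq' u (vE e) (2 * X) D e hu hv]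
  refine (sum_mul_sq_le_sq_mul_sq _ _ _).trans ?_
  exact mul_le_mul_of_nonneg_right (SC_cls u hu1 X D _ hD hDX hu hu0 hl1 hlX) (SC_nonneg _ _ _)

/-- the sum over the shifts of one coordinate -/
lemma shift_sum (u : ℕ → ℝ) (hu1 : ∀ n, |u n| ≤ 1) (X D e : ℕ) (hD : 1 ≤ D) (he : 1 ≤ e) (hDe : D * e ≤ X)
    (hu : ∀ i j : ℕ, ¬ (D : ℤ) ∣ (i : ℤ) - (j : ℤ) → u i * u j = 0) (hu0 : ∀ n, X < n → u n = 0) :
    ∑ x ∈ Icc 1 X, |∑ n ∈ Icc 1 X, u n * vE e (n + x)| ≤ Real.sqrt (X * QQ (2 * X) (D, e)) := by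
  refine Real.le_sqrt_of_sq_le ?_
  have h2 : (∑ x ∈ Icc 1 X, |∑ n ∈ Icc 1 X, u n * vE e (n + x)|) ^ 2 ≤
      ((Icc 1 X).card : ℝ) * ∑ x ∈ Icc 1 X, |∑ n ∈ Icc 1 X, u n * vE e (n + x)| ^ 2 := sq_sum_le_card_mul_sum_sq
  rw [Nat.card_Icc, Nat.add_sub_cancel] at h2
  refine h2.trans (mul_le_mul_of_nonneg_left ?_ (Nat.cast_nonneg _))
  simp only [sq_abs]
  exact (diff_quad X u (vE e) hu0).trans (quad_QQ u hu1 X D e hD he hDe hu hu0)

end Pool.Agent.U325.PT
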