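import Pool.Agent.U325.PT.Mean

/-!
Combinations of sieve functions of the numbers `n + h_1, ..., n + h_r` with coefficients which do not
depend on all the shifts do not see the parities of the numbers of prime factors, for almost all vectors of
shifts.
-/

set_option autoImplicit false

namespace Pool.Agent.U325.PT

open Finset Filter Topology
open Pool.Agent.U325.PB (lam lam_abs top top_le ev_exp)

variable {r : ℕ}

/-- sieve weights of level `X exp (-(log X) ^ δ)`: `ρ(d) = 0` if the product of the `d_i` is larger, and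
`|ρ(d)| ≤ (log X) ^ C (τ(d_1) ... τ(d_r)) ^ C` -/
def IsWeight (C : ℕ) (δ : ℝ) (X : ℕ) (ρ : (Fin r → ℕ) → ℝ) : Prop :=
  ∀ d : Fin r → ℕ, |ρ d| ≤ Real.log X ^ C * (∏ i, ((d i).divisors.card : ℝ)) ^ C ∧
    ((X : ℝ) * Real.exp (-(Real.log X) ^ δ) < ∏ i, (d i : ℝ) → ρ d = 0)

/-- `∑_k ∑_{d_i ∣ n + h_i} ρ_k(d) a_k(d, h, n)` -/
noncomputable def comb {K : ℕ} (a : Fin K → (Fin r → ℕ) → (Fin r → ℕ) → ℕ → ℝ) (ρ : Fin K → (Fin r → ℕ) → ℝ)
    (h : Fin r → ℕ) (n : ℕ) : ℝ :=
  ∑ k, ∑ d ∈ Fintype.piFinset (fun i => (n + h i).divisors), ρ k d * a k d h n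

lemma inner_eq {C : ℕ} {δ : ℝ} {X : ℕ} {ρ : (Fin r → ℕ) → ℝ} (hρ : IsWeight C δ X ρ)
    (a : (Fin r → ℕ) → (Fin r → ℕ) → ℕ → ℝ) (h : Fin r → ℕ) {n : ℕ} (hn : 1 ≤ n) :
    ∑ d ∈ Fintype.piFinset (fun i => (n + h i).divisors), ρ d * a d h n =
      ∑ d ∈ lev r (top δ X), ρ d * (if ∀ i, d i ∣ n + h i then a d h n else 0) := by
  have h1 : ∑ d ∈ lev r (top δ X), ρ d * (if ∀ i, d i ∣ n + h i then a d h n else 0) =
      ∑ d ∈ (lev r (top δ X)).filter (fun d => ∀ i, d i ∣ n + h i), ρ d * a d h n := by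
    rw [sum_filter]
    refine sum_congr rfl fun d _ => ?_
    by_cases b : ∀ i, d i ∣ n + h i
    · rw [if_pos b, if_pos b]
    · rw [if_neg b, if_neg b, mul_zero]
  rw [h1]
  symm
  refine sum_subset ?_ ?_
  · intro d hd
    rw [mem_filter] at hd
    rw [Fintype.mem_piFinset]
    exact fun i => Nat.mem_divisors.2 ⟨hd.2 i, by omega⟩
  · intro d hd hd2
    rw [Fintype.mem_piFinset] at hd
    have hdiv : ∀ i, d i ∣ n + h i := fun i => (Nat.mem_divisors.1 (hd i)).1
    have h2 : ρ d = 0 := by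
      refine (hρ d).2 ?_
      by_contra hcon
      push Not at hcon
      apply hd2
      rw [mem_filter, mem_lev]
      refine ⟨⟨fun i => Nat.pos_of_dvd_of_pos (hdiv i) (by omega), ?_⟩, hdiv⟩
      unfold top
      refine Nat.le_floor ?_
      push_cast
      exact hcon
    rw [h2, zero_mul]

/-- the sum over all `k`, all sets `I` which meet `S k`, and all vectors of divisors -/
noncomputable def total {K : ℕ} (S : Fin K → Finset (Fin r)) (a : Fin K → (Fin r → ℕ) → (Fin r → ℕ) → ℕ → ℝ)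
    (C : ℕ) (δ : ℝ) (X : ℕ) (h : Fin r → ℕ) : ℝ :=
  ∑ k, ∑ I ∈ (univ : Finset (Finset (Fin r))).filter (fun I => (I ∩ S k).Nonempty),
    ∑ d ∈ lev r (top δ X), wv C d * |TT I (a k) X d h|

lemma comb_bound {K : ℕ} {C : ℕ} {δ : ℝ} {X : ℕ} (S : Fin K → Finset (Fin r))
    (a : Fin K → (Fin r → ℕ) → (Fin r → ℕ) → ℕ → ℝ) (ρ : Fin K → (Fin r → ℕ) → ℝ) (hρ : ∀ k, IsWeight C δ X (ρ k))
    (h : Fin r → ℕ) (I : Finset (Fin r)) (hI : ∀ k, (I ∩ S k).Nonempty) :
    |∑ n ∈ Icc 1 X, (∏ i ∈ I, lam (n + h i)) * comb a ρ h n| ≤ Real.log X ^ C * total S a C δ X h := by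
  have h1 : ∑ n ∈ Icc 1 X, (∏ i ∈ I, lam (n + h i)) * comb a ρ h n =
      ∑ k, ∑ d ∈ lev r (top δ X), ρ k d * TT I (a k) X d h := by
    unfold comb TT
    simp only [mul_sum]
    rw [sum_comm]
    refine sum_congr rfl fun k _ => ?_
    rw [sum_comm]
    refine sum_congr rfl fun n hn => ?_
    rw [mem_Icc] at hn
    rw [← mul_sum, inner_eq (hρ k) (a k) h hn.1, mul_sum]
    exact sum_congr rfl fun d _ => by ring
  rw [h1]
  unfold total
  rw [mul_sum]
  refine (abs_sum_le_sum_abs _ _).trans (sum_le_sum fun k _ => ?_)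
  refine (abs_sum_le_sum_abs _ _).trans ?_
  have h2 : ∑ d ∈ lev r (top δ X), |ρ k d * TT I (a k) X d h| ≤
      Real.log X ^ C * ∑ d ∈ lev r (top δ X), wv C d * |TT I (a k) X d h| := by
    rw [mul_sum]
    refine sum_le_sum fun d _ => ?_
    rw [abs_mul, ← mul_assoc]
    exact mul_le_mul_of_nonneg_right ((hρ k) d).1 (abs_nonneg _)
  refine h2.trans (mul_le_mul_of_nonneg_left ?_ (by positivity))
  exact single_le_sum (f := fun I => ∑ d ∈ lev r (top δ X), wv C d * |TT I (a k) X d h|)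
    (fun I _ => sum_nonneg fun d _ => mul_nonneg (wv_nonneg C d) (abs_nonneg _))
    (mem_filter.2 ⟨mem_univ I, hI k⟩)

/-- **The exceptional set.** -/
theorem few_tuple (r A C : ℕ) (δ : ℝ) (hδ : 0 < δ) : ∃ X₀ : ℕ, ∀ X : ℕ, X₀ ≤ X → 1 ≤ Real.log X ∧ (2 : ℝ) ^ r ≤ Real.log X ∧
    ∀ (K : ℕ) (S : Fin K → Finset (Fin r)) (a : Fin K → (Fin r → ℕ) → (Fin r → ℕ) → ℕ → ℝ),
    (K : ℝ) ≤ Real.log X ^ C → (∀ k d h n, |a k d h n| ≤ 1) →
    (∀ k d h h' n, (∀ i, i ∉ S k → h i = h' i) → a k d h n = a k d h' n) →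
    ∃ E : Finset (Fin r → ℕ), (E.card : ℝ) ≤ (X : ℝ) ^ r / Real.log X ^ A ∧ ∀ h ∈ box r X, h ∉ E →
      Real.log X ^ C * total S a C δ X h ≤ X / Real.log X ^ A := by
  set V : ℕ := 2 * A + 2 * C + 1 with hV
  obtain ⟨X₁, h1⟩ := mean_tuple r δ hδ C V
  obtain ⟨X₂, h2⟩ := ev_exp δ hδ 1 (2 ^ r)
  refine ⟨max X₁ X₂, fun X hX => ?_⟩
  obtain ⟨hX3, hL1, hL, -⟩ := h2 X ((le_max_right _ _).trans hX)
  have hmean := h1 X ((le_max_left _ _).trans hX)
  refine ⟨hL1, hL, fun K S a hK ha hind => ?_⟩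
  have hXr : (0 : ℝ) < X := by exact_mod_cast hX3
  set L := Real.log X with hLd
  have hL0 : 0 < L := by linarith
  set thr : ℝ := X / L ^ (A + C) with hthr
  have hthr0 : 0 < thr := by positivity
  refine ⟨(box r X).filter (fun h => thr < total S a C δ X h), ?_, ?_⟩
  · set E := (box r X).filter (fun h => thr < total S a C δ X h) with hE
    have hsc0 : ∀ h, 0 ≤ total S a C δ X h := fun h =>
      sum_nonneg fun k _ => sum_nonneg fun I _ => sum_nonneg fun d _ => mul_nonneg (wv_nonneg C d) (abs_nonneg _)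
    have hcount : (E.card : ℝ) * thr ≤ ∑ h ∈ box r X, total S a C δ X h := by
      calc (E.card : ℝ) * thr = ∑ h ∈ E, thr := by rw [sum_const, nsmul_eq_mul]
        _ ≤ ∑ h ∈ E, total S a C δ X h := sum_le_sum fun h hh => (mem_filter.1 hh).2.le
        _ ≤ ∑ h ∈ box r X, total S a C δ X h :=
            sum_le_sum_of_subset_of_nonneg (filter_subset _ _) fun h _ _ => hsc0 h
    have hsum : ∑ h ∈ box r X, total S a C δ X h ≤ L ^ C * (2 ^ r * ((X : ℝ) ^ (r + 1) / L ^ V)) := by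
      unfold total
      rw [sum_comm]
      calc ∑ k, ∑ h ∈ box r X, ∑ I ∈ (univ : Finset (Finset (Fin r))).filter (fun I => (I ∩ S k).Nonempty),
              ∑ d ∈ lev r (top δ X), wv C d * |TT I (a k) X d h|
          ≤ ∑ _k : Fin K, 2 ^ r * ((X : ℝ) ^ (r + 1) / L ^ V) := by
            refine sum_le_sum fun k _ => ?_
            rw [sum_comm]
            calc ∑ I ∈ (univ : Finset (Finset (Fin r))).filter (fun I => (I ∩ S k).Nonempty),
                  ∑ h ∈ box r X, ∑ d ∈ lev r (top δ X), wv C d * |TT I (a k) X d h|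
                ≤ ∑ I ∈ (univ : Finset (Finset (Fin r))).filter (fun I => (I ∩ S k).Nonempty), (X : ℝ) ^ (r + 1) / L ^ V := by
                  refine sum_le_sum fun I hI => ?_
                  rw [mem_filter] at hI
                  obtain ⟨j, hj⟩ := hI.2
                  rw [mem_inter] at hj
                  refine hmean I (a k) (ha k) j hj.1 fun d h x n => ?_
                  refine hind k d _ _ n fun i hi => ?_
                  rw [Function.update_of_ne]
                  rintro rfl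
                  exact hi hj.2
              _ = (((univ : Finset (Finset (Fin r))).filter (fun I => (I ∩ S k).Nonempty)).card : ℝ) *
                    ((X : ℝ) ^ (r + 1) / L ^ V) := by rw [sum_const, nsmul_eq_mul]
              _ ≤ 2 ^ r * ((X : ℝ) ^ (r + 1) / L ^ V) := by
                  refine mul_le_mul_of_nonneg_right ?_ (by positivity)
                  have h3 := card_filter_le (univ : Finset (Finset (Fin r))) (fun I => (I ∩ S k).Nonempty)
                  rw [card_univ, Fintype.card_finset, Fintype.card_fin] at h3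
                  exact_mod_cast h3
        _ = K * (2 ^ r * ((X : ℝ) ^ (r + 1) / L ^ V)) := by
            rw [sum_const, card_univ, Fintype.card_fin, nsmul_eq_mul]
        _ ≤ _ := mul_le_mul_of_nonneg_right hK (by positivity)
    have h4 : (E.card : ℝ) * thr ≤ (X : ℝ) ^ r / L ^ A * thr := by
      refine (hcount.trans hsum).trans ?_
      rw [hthr]
      have e1 : L ^ C * (2 ^ r * ((X : ℝ) ^ (r + 1) / L ^ V)) = 2 ^ r * ((X : ℝ) ^ (r + 1) / L ^ (2 * A + C + 1)) := by
        rw [hV, show 2 * A + 2 * C + 1 = (2 * A + C + 1) + C by ring, pow_add L (2 * A + C + 1) C]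
        field_simp
      have e2 : (X : ℝ) ^ r / L ^ A * (X / L ^ (A + C)) = L * ((X : ℝ) ^ (r + 1) / L ^ (2 * A + C + 1)) := by
        rw [show 2 * A + C + 1 = A + (A + C) + 1 by ring, pow_add L (A + (A + C)) 1, pow_add L A (A + C), pow_one]
        field_simp
        ring
      rw [e1, e2]
      exact mul_le_mul_of_nonneg_right hL (by positivity)
    exact le_of_mul_le_mul_right h4 hthr0
  · intro h hh hhE
    have h3 : total S a C δ X h ≤ thr := by
      by_contra hcon
      push Not at hcon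
      exact hhE (mem_filter.2 ⟨hh, hcon⟩)
    calc L ^ C * total S a C δ X h ≤ L ^ C * thr := mul_le_mul_of_nonneg_left h3 (by positivity)
      _ = X / L ^ A := by
          rw [hthr, pow_add]
          field_simp

/-- the indicator function of a pattern of parities -/
lemma pattern (J : Finset (Fin r)) (h : Fin r → ℕ) (n : ℕ) :
    ∏ i, (1 + (if i ∈ J then (1 : ℝ) else -1) * lam (n + h i)) =
      if ∀ i, (Even (ArithmeticFunction.cardFactors (n + h i)) ↔ i ∈ J) then (2 : ℝ) ^ r else 0 := by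
  by_cases b : ∀ i, (Even (ArithmeticFunction.cardFactors (n + h i)) ↔ i ∈ J)
  · rw [if_pos b]
    have h1 : ∀ i ∈ (univ : Finset (Fin r)), (1 + (if i ∈ J then (1 : ℝ) else -1) * lam (n + h i)) = 2 := by
      intro i _
      unfold lam
      by_cases hi : i ∈ J
      · rw [if_pos hi, ((b i).2 hi).neg_one_pow]; norm_num
      · rw [if_neg hi, (Nat.not_even_iff_odd.1 fun h => hi ((b i).1 h)).neg_one_pow]; norm_num
    rw [prod_congr rfl h1, prod_const, card_univ, Fintype.card_fin]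
  · rw [if_neg b]
    push Not at b
    obtain ⟨i, hi⟩ := b
    refine prod_eq_zero (mem_univ i) ?_
    unfold lam
    rcases hi with ⟨h1, h2⟩ | ⟨h1, h2⟩
    · rw [if_neg h2, h1.neg_one_pow]; norm_num
    · rw [if_pos h2, (Nat.not_even_iff_odd.1 h1).neg_one_pow]; norm_num

/-- equidistribution of the patterns -/
lemma pattern_sum (J : Finset (Fin r)) (h : Fin r → ℕ) (X : ℕ) (F : ℕ → ℝ) (B : ℝ) (hB0 : 0 ≤ B)
    (hB : ∀ I : Finset (Fin r), I.Nonempty → |∑ n ∈ Icc 1 X, (∏ i ∈ I, lam (n + h i)) * F n| ≤ B) :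
    |2 ^ r * (∑ n ∈ (Icc 1 X).filter (fun n => ∀ i, (Even (ArithmeticFunction.cardFactors (n + h i)) ↔ i ∈ J)), F n) -
      ∑ n ∈ Icc 1 X, F n| ≤ 2 ^ r * B := by
  have h1 : 2 ^ r * (∑ n ∈ (Icc 1 X).filter (fun n => ∀ i, (Even (ArithmeticFunction.cardFactors (n + h i)) ↔ i ∈ J)), F n) =
      ∑ n ∈ Icc 1 X, (∏ i, (1 + (if i ∈ J then (1 : ℝ) else -1) * lam (n + h i))) * F n := by
    rw [sum_filter, mul_sum]
    refine sum_congr rfl fun n _ => ?_
    rw [pattern]
    split_ifs <;> ring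
  have h2 : ∑ n ∈ Icc 1 X, (∏ i, (1 + (if i ∈ J then (1 : ℝ) else -1) * lam (n + h i))) * F n =
      ∑ I ∈ (univ : Finset (Fin r)).powerset, (∏ i ∈ I, (if i ∈ J then (1 : ℝ) else -1)) *
        ∑ n ∈ Icc 1 X, (∏ i ∈ I, lam (n + h i)) * F n := by
    simp only [prod_one_add, prod_mul_distrib, sum_mul, mul_sum]
    rw [sum_comm]
    exact sum_congr rfl fun I _ => sum_congr rfl fun n _ => by ring
  rw [h1, h2, ← add_sum_erase _ _ (empty_mem_powerset (univ : Finset (Fin r)))]
  simp only [prod_empty, one_mul, add_sub_cancel_left]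
  refine (abs_sum_le_sum_abs _ _).trans ?_
  have h3 : ∀ I ∈ (univ : Finset (Fin r)).powerset.erase ∅,
      |(∏ i ∈ I, (if i ∈ J then (1 : ℝ) else -1)) * ∑ n ∈ Icc 1 X, (∏ i ∈ I, lam (n + h i)) * F n| ≤ B := by
    intro I hI
    rw [mem_erase] at hI
    rw [abs_mul, abs_prod]
    have h4 : ∏ i ∈ I, |(if i ∈ J then (1 : ℝ) else -1)| = 1 := by
      refine prod_eq_one fun i _ => ?_
      split_ifs <;> simp
    rw [h4, one_mul]
    exact hB I (nonempty_iff_ne_empty.2 hI.1)
  refine (sum_le_sum h3).trans ?_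
  rw [sum_const, nsmul_eq_mul]
  refine mul_le_mul_of_nonneg_right ?_ hB0
  have h6 : ((univ : Finset (Fin r)).powerset.erase ∅).card ≤ (univ : Finset (Fin r)).powerset.card :=
    card_le_card (erase_subset _ _)
  rw [card_powerset, card_univ, Fintype.card_fin] at h6
  exact_mod_cast h6

end Pool.Agent.U325.PT
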