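import Pool.Agent.U325.PT.Cnt

/-!
The mean over all vectors of shifts and all vectors of divisors.
-/

set_option autoImplicit false

namespace Pool.Agent.U325.PT

open Finset Filter Topology
open Pool.Agent.U325.PB

/-- the mean of the bounds for the quadruples -/
theorem mean_Q (δ : ℝ) (hδ : 0 < δ) (C V : ℕ) : ∃ X₀ : ℕ, ∀ X : ℕ, X₀ ≤ X →
    (∑ p ∈ prs (top δ X), wt C p * Real.sqrt (QQ X p)) ^ 2 ≤
      9 * (X : ℝ) ^ 3 * (1 + Real.log X) ^ (2 * (2 ^ (2 * C) + 2)) / Real.log X ^ (2 * V) := by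
  obtain ⟨X₁, h1⟩ := W_bound δ hδ (4 * V)
  obtain ⟨X₂, h2⟩ := ev_exp δ hδ 1 1
  refine ⟨max X₁ X₂, fun X hX => ?_⟩
  obtain ⟨hX1, hL1, -, -⟩ := h2 X ((le_max_right _ _).trans hX)
  have hW := h1 X ((le_max_left _ _).trans hX)
  have hZX := top_le δ X hL1
  set L := Real.log X with hL
  set Z := top δ X with hZ
  have hL0 : 0 < L := by linarith
  have hXr : (1 : ℝ) ≤ X := by exact_mod_cast hX1
  -- the correlations
  have E1 : ∑ p ∈ prs Z, (p.2 : ℝ) ^ 2 * SC (vE p.2) X (Nat.lcm p.1 p.2) ≤ 26 * (1 + L) ^ 3 * (X : ℝ) ^ 3 / L ^ (4 * V) := by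
    rw [sum_prs]
    dsimp only
    calc ∑ e ∈ Icc 1 Z, ∑ d ∈ Icc 1 (Z / e), (e : ℝ) ^ 2 * SC (vE e) X (Nat.lcm d e)
        ≤ ∑ e ∈ Icc 1 Z, (26 * (1 + L) * (X : ℝ) ^ 3 / L ^ (4 * V)) * ((e.divisors.card : ℝ) ^ 1 / e) := by
          refine sum_le_sum fun e he => ?_
          rw [mem_Icc] at he
          have her : (0 : ℝ) < e := by exact_mod_cast he.1
          rw [← mul_sum]
          calc (e : ℝ) ^ 2 * ∑ d ∈ Icc 1 (Z / e), SC (vE e) X (Nat.lcm d e)
              ≤ (e : ℝ) ^ 2 * ((X : ℝ) / e * (e.divisors.card * ((1 + L) * (26 * ((X : ℝ) / e) ^ 2 / L ^ (4 * V))))) :=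
                mul_le_mul_of_nonneg_left (sum_SC e X (Z / e) he.1 _ fun γ => hW e he.1 he.2 γ) (by positivity)
            _ = _ := by field_simp
      _ = (26 * (1 + L) * (X : ℝ) ^ 3 / L ^ (4 * V)) * ∑ e ∈ Icc 1 Z, (e.divisors.card : ℝ) ^ 1 / e := by rw [mul_sum]
      _ ≤ (26 * (1 + L) * (X : ℝ) ^ 3 / L ^ (4 * V)) * Pool.Agent.U325.PB.tsum 1 X := by
          refine mul_le_mul_of_nonneg_left ?_ (by positivity)
          unfold Pool.Agent.U325.PB.tsum
          exact sum_le_sum_of_subset_of_nonneg (Icc_subset_Icc_right hZX) fun _ _ _ => by positivity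
      _ ≤ (26 * (1 + L) * (X : ℝ) ^ 3 / L ^ (4 * V)) * (1 + L) ^ (2 ^ 1) :=
          mul_le_mul_of_nonneg_left (tsum_le 1 X hX1) (by positivity)
      _ = _ := by ring
  have E2 : ∑ p ∈ prs Z, 3 * (X : ℝ) ^ 3 * (1 / (Nat.lcm p.1 p.2 : ℝ)) ≤ 3 * (X : ℝ) ^ 3 * (1 + L) ^ 4 := by
    rw [← mul_sum]
    refine mul_le_mul_of_nonneg_left ?_ (by positivity)
    calc _ ≤ Pool.Agent.U325.PB.tsum 2 X := sum_lcm X Z hZX
      _ ≤ (1 + L) ^ (2 ^ 2) := tsum_le 2 X hX1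
      _ = (1 + L) ^ 4 := by norm_num
  set P2 : ℝ := ∑ p ∈ prs Z, (p.1 : ℝ) * p.2 * QQ X p with hP2
  have hP20 : 0 ≤ P2 := sum_nonneg fun p _ => mul_nonneg (by positivity) (QQ_nonneg _ _)
  have hP2b : P2 ≤ 9 * (X : ℝ) ^ 3 * (1 + L) ^ 4 / L ^ (2 * V) := by
    have e1 : P2 ^ 2 ≤ (∑ p ∈ prs Z, 3 * (X : ℝ) ^ 3 * (1 / (Nat.lcm p.1 p.2 : ℝ))) *
        ∑ p ∈ prs Z, (p.2 : ℝ) ^ 2 * SC (vE p.2) X (Nat.lcm p.1 p.2) := by
      refine sum_sq_le_sum_mul_sum_of_sq_le_mul _ (fun p _ => by positivity)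
        (fun p _ => mul_nonneg (by positivity) (SC_nonneg _ _ _)) (fun p hp => ?_)
      rw [mem_prs] at hp
      have hp1 : (p.1 : ℝ) ≠ 0 := by have := hp.1; positivity
      have hl1 : 1 ≤ Nat.lcm p.1 p.2 := Nat.lcm_pos hp.1 hp.2.1
      have hl0 : ((Nat.lcm p.1 p.2 : ℕ) : ℝ) ≠ 0 := by positivity
      unfold QQ
      rw [mul_pow, Real.sq_sqrt (mul_nonneg (by positivity) (SC_nonneg _ _ _))]
      apply le_of_eq
      field_simp
    have e2 : P2 ^ 2 ≤ (9 * (X : ℝ) ^ 3 * (1 + L) ^ 4 / L ^ (2 * V)) ^ 2 := by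
      calc P2 ^ 2 ≤ (3 * (X : ℝ) ^ 3 * (1 + L) ^ 4) * (26 * (1 + L) ^ 3 * (X : ℝ) ^ 3 / L ^ (4 * V)) :=
            e1.trans (mul_le_mul E2 E1 (sum_nonneg fun p _ => mul_nonneg (by positivity) (SC_nonneg _ _ _)) (by positivity))
        _ = (78 * (X : ℝ) ^ 6 * (1 + L) ^ 7) / L ^ (4 * V) := by ring
        _ ≤ (81 * (X : ℝ) ^ 6 * (1 + L) ^ 8) / L ^ (4 * V) := by
            have : (1 + L) ^ 7 ≤ (1 + L) ^ 8 := pow_le_pow_right₀ (by linarith) (by norm_num)
            gcongr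
            norm_num
        _ = _ := by
            rw [div_pow, ← pow_mul, show 2 * V * 2 = 4 * V by ring]
            ring
    exact (pow_le_pow_iff_left₀ hP20 (by positivity) (by norm_num)).1 e2
  have hP1 : ∑ p ∈ prs Z, wt C p ^ 2 / ((p.1 : ℝ) * p.2) ≤ ((1 + L) ^ (2 ^ (2 * C))) ^ 2 :=
    (sum_wt C X Z hZX).trans (pow_le_pow_left₀ (tsum_nonneg _ _) (tsum_le _ X hX1) 2)
  have e1 := sum_sq_le_sum_mul_sum_of_sq_le_mul (prs Z)
    (r := fun p => wt C p * Real.sqrt (QQ X p)) (f := fun p => wt C p ^ 2 / ((p.1 : ℝ) * p.2))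
    (g := fun p => ((p.1 : ℝ) * p.2) * QQ X p) (fun p _ => by positivity)
    (fun p _ => mul_nonneg (by positivity) (QQ_nonneg _ _)) (fun p hp => by
      have hm := mem_prs.1 hp
      have a1 : (p.1 : ℝ) ≠ 0 := by have := hm.1; positivity
      have a2 : (p.2 : ℝ) ≠ 0 := by have := hm.2.1; positivity
      rw [mul_pow, Real.sq_sqrt (QQ_nonneg _ _)]
      apply le_of_eq
      field_simp)
  refine e1.trans ?_
  calc _ ≤ ((1 + L) ^ (2 ^ (2 * C))) ^ 2 * (9 * (X : ℝ) ^ 3 * (1 + L) ^ 4 / L ^ (2 * V)) :=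
        mul_le_mul hP1 hP2b hP20 (by positivity)
    _ = _ := by
        rw [show 2 * (2 ^ (2 * C) + 2) = 2 ^ (2 * C) * 2 + 4 by ring, pow_add, pow_mul]
        ring

variable {r : ℕ}

/-- the weight of a vector of divisors -/
noncomputable def wv (C : ℕ) (d : Fin r → ℕ) : ℝ := (∏ i, ((d i).divisors.card : ℝ)) ^ C

lemma wv_nonneg (C : ℕ) (d : Fin r → ℕ) : 0 ≤ wv C d := by unfold wv; positivity

/-- the vectors of divisors as pairs -/
lemma group (C Z : ℕ) (j : Fin r) (g : ℕ × ℕ → ℝ) (hg : ∀ p, 0 ≤ g p) :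
    ∑ d ∈ lev r Z, wv C d * g (lcmo j d, d j) ≤ ∑ p ∈ prs Z, wt (r * (C + 1)) p * g p := by
  have hmap : ∀ d ∈ lev r Z, (lcmo j d, d j) ∈ prs Z := by
    intro d hd
    rw [mem_lev] at hd
    rw [mem_prs]
    dsimp only
    have hP1 : 0 < ∏ i ∈ univ.erase j, d i := prod_pos fun i _ => hd.1 i
    have hDP : lcmo j d ∣ ∏ i ∈ univ.erase j, d i := Finset.lcm_dvd fun i hi => dvd_prod_of_mem d hi
    refine ⟨Nat.pos_of_dvd_of_pos hDP hP1, hd.1 j, ?_⟩
    calc lcmo j d * d j ≤ (∏ i ∈ univ.erase j, d i) * d j := Nat.mul_le_mul_right _ (Nat.le_of_dvd hP1 hDP)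
      _ = ∏ i, d i := by rw [mul_comm, mul_prod_erase univ d (mem_univ j)]
      _ ≤ Z := hd.2
  rw [← sum_fiberwise_of_maps_to hmap]
  refine sum_le_sum fun p hp => ?_
  rw [mem_prs] at hp
  set τ : ℝ := (p.1.divisors.card : ℝ) * p.2.divisors.card with hτ
  have hc1 : (1 : ℝ) ≤ p.1.divisors.card := by
    exact_mod_cast Finset.card_pos.2 ⟨1, Nat.one_mem_divisors.2 (by omega)⟩
  have hc2 : (1 : ℝ) ≤ p.2.divisors.card := by
    exact_mod_cast Finset.card_pos.2 ⟨1, Nat.one_mem_divisors.2 (by omega)⟩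
  have hτ1 : 1 ≤ τ := one_le_mul_of_one_le_of_one_le hc1 hc2
  have h1 : ∀ d ∈ (lev r Z).filter (fun d => (lcmo j d, d j) = p), wv C d * g (lcmo j d, d j) ≤ (τ ^ r) ^ C * g p := by
    intro d hd
    rw [mem_filter] at hd
    rw [hd.2]
    refine mul_le_mul_of_nonneg_right ?_ (hg p)
    unfold wv
    refine pow_le_pow_left₀ (by positivity) ?_ C
    calc ∏ i, ((d i).divisors.card : ℝ) ≤ ∏ _i : Fin r, τ := by
          refine prod_le_prod (fun _ _ => Nat.cast_nonneg _) fun i _ => ?_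
          by_cases hi : i = j
          · have : d i = p.2 := by rw [hi, ← hd.2]
            rw [this, hτ]
            exact le_mul_of_one_le_left (by positivity) hc1
          · have h2 : d i ∣ p.1 := by
              rw [← hd.2]
              exact Finset.dvd_lcm (mem_erase.2 ⟨hi, mem_univ i⟩)
            have h3 : ((d i).divisors.card : ℝ) ≤ p.1.divisors.card := by
              exact_mod_cast Finset.card_le_card (Nat.divisors_subset_of_dvd (by omega) h2)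
            refine h3.trans ?_
            rw [hτ]
            exact le_mul_of_one_le_right (by positivity) hc2
      _ = τ ^ r := by rw [prod_const, card_univ, Fintype.card_fin]
  refine (sum_le_sum h1).trans ?_
  rw [sum_const, nsmul_eq_mul]
  have h4 : (((lev r Z).filter (fun d => (lcmo j d, d j) = p)).card : ℝ) ≤ τ ^ r := by
    have h5 : (lev r Z).filter (fun d => (lcmo j d, d j) = p) ⊆
        Fintype.piFinset (fun i => if i = j then {p.2} else p.1.divisors) := by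
      intro d hd
      rw [mem_filter] at hd
      rw [Fintype.mem_piFinset]
      intro i
      by_cases hi : i = j
      · rw [if_pos hi, mem_singleton, hi, ← hd.2]
      · rw [if_neg hi, Nat.mem_divisors]
        refine ⟨?_, by omega⟩
        rw [← hd.2]
        exact Finset.dvd_lcm (mem_erase.2 ⟨hi, mem_univ i⟩)
    have h6 := card_le_card h5
    rw [Fintype.card_piFinset] at h6
    calc (((lev r Z).filter (fun d => (lcmo j d, d j) = p)).card : ℝ)
        ≤ ((∏ i : Fin r, (if i = j then ({p.2} : Finset ℕ) else p.1.divisors).card : ℕ) : ℝ) := by exact_mod_cast h6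
      _ = ∏ i : Fin r, (((if i = j then ({p.2} : Finset ℕ) else p.1.divisors).card : ℕ) : ℝ) := by push_cast; rfl
      _ ≤ ∏ _i : Fin r, τ := by
          refine prod_le_prod (fun _ _ => Nat.cast_nonneg _) fun i _ => ?_
          by_cases hi : i = j
          · rw [if_pos hi, card_singleton, Nat.cast_one]
            exact hτ1
          · rw [if_neg hi, hτ]
            exact le_mul_of_one_le_right (by positivity) hc2
      _ = τ ^ r := by rw [prod_const, card_univ, Fintype.card_fin]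
  calc (((lev r Z).filter (fun d => (lcmo j d, d j) = p)).card : ℝ) * ((τ ^ r) ^ C * g p)
      ≤ τ ^ r * ((τ ^ r) ^ C * g p) := mul_le_mul_of_nonneg_right h4 (mul_nonneg (by positivity) (hg p))
    _ = wt (r * (C + 1)) p * g p := by
        unfold wt
        rw [← hτ, ← mul_assoc, ← pow_succ', ← pow_mul]

lemma prs_mono {Z Z' : ℕ} (h : Z ≤ Z') : prs Z ⊆ prs Z' := by
  intro p hp
  rw [mem_prs] at hp ⊢
  exact ⟨hp.1, hp.2.1, hp.2.2.trans h⟩

/-- the level for the double length -/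
lemma top_two (δ : ℝ) (hδ : 0 < δ) (X : ℕ) (hX : 1 ≤ X) (hL : 2 ≤ Real.log X) : top δ X ≤ top (δ / 2) (2 * X) := by
  unfold top
  refine Nat.floor_le_floor ?_
  have hXr : (0 : ℝ) < X := by exact_mod_cast hX
  have h1 : Real.log ((2 * X : ℕ) : ℝ) = Real.log 2 + Real.log X := by
    push_cast
    rw [Real.log_mul (by norm_num) (by positivity)]
  have h2 : Real.log 2 ≤ 1 := by have := Real.log_two_lt_d9; linarith
  have h3 : 0 ≤ Real.log 2 := Real.log_nonneg (by norm_num)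
  have h4 : Real.log ((2 * X : ℕ) : ℝ) ≤ Real.log X ^ (2 : ℕ) := by rw [h1]; nlinarith
  have h5 : (Real.log ((2 * X : ℕ) : ℝ)) ^ (δ / 2) ≤ (Real.log X) ^ δ := by
    calc (Real.log ((2 * X : ℕ) : ℝ)) ^ (δ / 2) ≤ (Real.log X ^ (2 : ℕ)) ^ (δ / 2) :=
          Real.rpow_le_rpow (by rw [h1]; linarith) h4 (by positivity)
      _ = (Real.log X) ^ δ := by
          rw [← Real.rpow_natCast, ← Real.rpow_mul (by linarith)]
          congr 1
          push_cast
          ring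
  have h6 : Real.exp (-(Real.log X) ^ δ) ≤ Real.exp (-(Real.log ((2 * X : ℕ) : ℝ)) ^ (δ / 2)) :=
    Real.exp_le_exp.2 (by linarith)
  calc (X : ℝ) * Real.exp (-(Real.log X) ^ δ) ≤ ((2 * X : ℕ) : ℝ) * Real.exp (-(Real.log X) ^ δ) := by
        refine mul_le_mul_of_nonneg_right ?_ (Real.exp_pos _).le
        push_cast
        linarith
    _ ≤ _ := mul_le_mul_of_nonneg_left h6 (Nat.cast_nonneg _)

/-- **The mean over the vectors of shifts and of divisors.** -/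
theorem mean_tuple (r : ℕ) (δ : ℝ) (hδ : 0 < δ) (C V : ℕ) : ∃ X₀ : ℕ, ∀ X : ℕ, X₀ ≤ X → ∀ (I : Finset (Fin r))
    (a : (Fin r → ℕ) → (Fin r → ℕ) → ℕ → ℝ), (∀ d h n, |a d h n| ≤ 1) → ∀ j ∈ I,
    (∀ d h x n, a d (Function.update h j x) n = a d h n) →
    ∑ h ∈ box r X, ∑ d ∈ lev r (top δ X), wv C d * |TT I a X d h| ≤ (X : ℝ) ^ (r + 1) / Real.log X ^ V := by
  set n₀ : ℕ := 2 ^ (2 * (r * (C + 1))) + 2 with hn₀
  obtain ⟨X₁, h1⟩ := mean_Q (δ / 2) (by positivity) (r * (C + 1)) (V + n₀ + 1)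
  obtain ⟨X₂, h2⟩ := ev_exp δ hδ 1 (9 * 2 ^ r * 2 ^ n₀ + 2)
  refine ⟨max X₁ X₂, fun X hX I a ha j hj haj => ?_⟩
  obtain ⟨hX1, hL1, hL2, -⟩ := h2 X ((le_max_right _ _).trans hX)
  have hX2 : X₁ ≤ 2 * X := by have := (le_max_left _ _).trans hX; omega
  have hQ := h1 (2 * X) hX2
  have hr1 : 1 ≤ r := by
    rcases Nat.eq_zero_or_pos r with h | h
    · subst h; exact j.elim0
    · exact h
  have hXr : (0 : ℝ) < X := by exact_mod_cast hX1
  have p1 : (0 : ℝ) < 9 * 2 ^ r * 2 ^ n₀ := by positivity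
  have hZX := top_le δ X hL1
  have hlog2 : Real.log ((2 * X : ℕ) : ℝ) = Real.log 2 + Real.log X := by
    push_cast
    rw [Real.log_mul (by norm_num) (by positivity)]
  have hl2 : 0 ≤ Real.log 2 := Real.log_nonneg (by norm_num)
  set L := Real.log X with hL
  set M := Real.log ((2 * X : ℕ) : ℝ) with hM
  have hLM : L ≤ M := by linarith
  have hL0 : 0 < L := by linarith
  have hM0 : 0 < M := by linarith
  have hM1 : 1 ≤ M := by linarith
  set S := ∑ p ∈ prs (top (δ / 2) (2 * X)), wt (r * (C + 1)) p * Real.sqrt (QQ (2 * X) p) with hS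
  have hS0 : 0 ≤ S := sum_nonneg fun p _ => mul_nonneg (wt_nonneg _ _) (Real.sqrt_nonneg _)
  -- the sum over the divisors
  have hA : ∑ h ∈ box r X, ∑ d ∈ lev r (top δ X), wv C d * |TT I a X d h| ≤
      (2 * (X : ℝ)) ^ (r - 1) * (Real.sqrt X * S) := by
    rw [sum_comm]
    calc ∑ d ∈ lev r (top δ X), ∑ h ∈ box r X, wv C d * |TT I a X d h|
        ≤ ∑ d ∈ lev r (top δ X), wv C d * ((2 * (X : ℝ)) ^ (r - 1) * Real.sqrt (X * QQ (2 * X) (lcmo j d, d j))) := by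
          refine sum_le_sum fun d hd => ?_
          rw [← mul_sum]
          exact mul_le_mul_of_nonneg_left (sum_TT I a ha X (top δ X) hX1 hZX j hj haj d hd) (wv_nonneg C d)
      _ = (2 * (X : ℝ)) ^ (r - 1) * (Real.sqrt X * ∑ d ∈ lev r (top δ X), wv C d * Real.sqrt (QQ (2 * X) (lcmo j d, d j))) := by
          rw [mul_sum, mul_sum]
          refine sum_congr rfl fun d _ => ?_
          rw [Real.sqrt_mul hXr.le]
          ring
      _ ≤ (2 * (X : ℝ)) ^ (r - 1) * (Real.sqrt X * S) := by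
          refine mul_le_mul_of_nonneg_left (mul_le_mul_of_nonneg_left ?_ (Real.sqrt_nonneg _)) (by positivity)
          refine (group C (top δ X) j (fun p => Real.sqrt (QQ (2 * X) p)) fun p => Real.sqrt_nonneg _).trans ?_
          exact sum_le_sum_of_subset_of_nonneg (prs_mono (top_two δ hδ X hX1 (by linarith)))
            fun p _ _ => mul_nonneg (wt_nonneg _ _) (Real.sqrt_nonneg _)
  refine hA.trans ?_
  have hB : Real.sqrt X * S ≤ 9 * (X : ℝ) ^ 2 * (1 + M) ^ n₀ / M ^ (V + n₀ + 1) := by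
    have e1 : (Real.sqrt X * S) ^ 2 ≤ (9 * (X : ℝ) ^ 2 * (1 + M) ^ n₀ / M ^ (V + n₀ + 1)) ^ 2 := by
      rw [mul_pow, Real.sq_sqrt hXr.le]
      calc (X : ℝ) * S ^ 2 ≤ X * (9 * ((2 * X : ℕ) : ℝ) ^ 3 * (1 + M) ^ (2 * n₀) / M ^ (2 * (V + n₀ + 1))) :=
            mul_le_mul_of_nonneg_left hQ hXr.le
        _ = 72 * ((X : ℝ) ^ 4 * (1 + M) ^ (2 * n₀) / M ^ (2 * (V + n₀ + 1))) := by push_cast; ring
        _ ≤ 81 * ((X : ℝ) ^ 4 * (1 + M) ^ (2 * n₀) / M ^ (2 * (V + n₀ + 1))) :=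
            mul_le_mul_of_nonneg_right (by norm_num) (by positivity)
        _ = _ := by
            rw [div_pow, mul_pow, mul_pow, ← pow_mul, ← pow_mul, ← pow_mul, mul_comm 2 n₀, mul_comm 2 (V + n₀ + 1)]
            ring
    exact (pow_le_pow_iff_left₀ (by positivity) (by positivity) (by norm_num)).1 e1
  have hC : (1 + M) ^ n₀ ≤ 2 ^ n₀ * M ^ n₀ := by
    rw [← mul_pow]
    exact pow_le_pow_left₀ (by linarith) (by linarith) _
  calc (2 * (X : ℝ)) ^ (r - 1) * (Real.sqrt X * S)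
      ≤ (2 * (X : ℝ)) ^ (r - 1) * (9 * (X : ℝ) ^ 2 * (2 ^ n₀ * M ^ n₀) / M ^ (V + n₀ + 1)) := by
        refine mul_le_mul_of_nonneg_left (hB.trans ?_) (by positivity)
        gcongr
    _ = (9 * 2 ^ (r - 1) * 2 ^ n₀) * ((X : ℝ) ^ (r - 1) * X ^ 2) / (M ^ (V + 1)) := by
        rw [mul_pow, show V + n₀ + 1 = (V + 1) + n₀ by ring, pow_add M (V + 1) n₀]
        field_simp
    _ = (9 * 2 ^ (r - 1) * 2 ^ n₀) * (X : ℝ) ^ (r + 1) / (M ^ (V + 1)) := by
        rw [← pow_add, show r - 1 + 2 = r + 1 by omega]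
    _ ≤ (X : ℝ) ^ (r + 1) / L ^ V := by
        rw [div_le_div_iff₀ (by positivity) (by positivity)]
        have e1 : (9 * 2 ^ (r - 1) * 2 ^ n₀ : ℝ) ≤ M := by
          have : (2 : ℝ) ^ (r - 1) ≤ 2 ^ r := pow_le_pow_right₀ (by norm_num) (by omega)
          calc (9 * 2 ^ (r - 1) * 2 ^ n₀ : ℝ) ≤ 9 * 2 ^ r * 2 ^ n₀ := by gcongr
            _ ≤ M := by linarith
        have e2 : L ^ V ≤ M ^ V := pow_le_pow_left₀ hL0.le hLM V
        calc (9 * 2 ^ (r - 1) * 2 ^ n₀) * (X : ℝ) ^ (r + 1) * L ^ V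
            = (X : ℝ) ^ (r + 1) * ((9 * 2 ^ (r - 1) * 2 ^ n₀) * L ^ V) := by ring
          _ ≤ (X : ℝ) ^ (r + 1) * (M * M ^ V) := by gcongr
          _ = _ := by ring

end Pool.Agent.U325.PT
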